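import Pool.Agent.W65.CS.Fin
import Pool.Agent.W65.CS.Small

/-!
# MP_0e0027_nt: sums of four pairwise coprime squares

Turan's question up to finitely many integers: there is a finite set `E` such that a positive integer `n` is a
sum of four pairwise coprime squares if and only if `n ≡ 3, 4, 7 (mod 8)`, `n ≢ 2 (mod 3)` and `n ∉ E`.
The set `E` contains `100` and `268`, and no other integer below `3000`. For every `ε > 0`, every large `n`
satisfying the two congruence conditions has at least `n ^ (1 - ε)` such representations.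
-/

set_option autoImplicit false

namespace Pool.Agent.Results.MP_0e0027_nt.CoprimeSquares

/-- `n` is a sum of four pairwise coprime squares. -/
def Representable (n : ℕ) : Prop :=
  ∃ x : Fin 4 → ℤ, ∑ i, x i ^ 2 = (n : ℤ) ∧ ∀ i j, i ≠ j → Int.gcd (x i) (x j) = 1

/-- The congruence conditions. -/
def Adm (n : ℕ) : Prop := (n % 8 = 3 ∨ n % 8 = 4 ∨ n % 8 = 7) ∧ n % 3 ≠ 2

open Pool.Agent.W65.CS

lemma sq_mod3 (x : ℤ) : (x ^ 2 % 3 = 1 ∧ x % 3 ≠ 0) ∨ (x ^ 2 % 3 = 0 ∧ x % 3 = 0) := by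
  have h : x % 3 = 0 ∨ x % 3 = 1 ∨ x % 3 = 2 := by omega
  rcases h with h | h | h
  · right; refine ⟨?_, h⟩
    rw [pow_two, Int.mul_emod, h]; rfl
  · left; refine ⟨?_, by omega⟩
    rw [pow_two, Int.mul_emod, h]; rfl
  · left; refine ⟨?_, by omega⟩
    rw [pow_two, Int.mul_emod, h]; rfl

lemma adm_of_rep (n : ℕ) (h : Representable n) : Adm n := by
  obtain ⟨x, hx, hg⟩ := h
  rw [Fin.sum_univ_four] at hx
  have key : ∀ (p : ℕ), 1 < p → ∀ i j, i ≠ j → ¬ ((p : ℤ) ∣ x i ∧ (p : ℤ) ∣ x j) := by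
    rintro p hp i j hij ⟨h1, h2⟩
    have h3 := Int.dvd_coe_gcd h1 h2
    rw [hg i j hij] at h3
    have : p ∣ 1 := by exact_mod_cast h3
    have := Nat.dvd_one.1 this
    omega
  have k2 : ∀ i j, i ≠ j → ¬ (x i % 2 = 0 ∧ x j % 2 = 0) := by
    rintro i j hij ⟨h1, h2⟩
    exact key 2 (by norm_num) i j hij ⟨Int.dvd_of_emod_eq_zero (by exact_mod_cast h1), Int.dvd_of_emod_eq_zero (by exact_mod_cast h2)⟩
  have k3 : ∀ i j, i ≠ j → ¬ (x i % 3 = 0 ∧ x j % 3 = 0) := by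
    rintro i j hij ⟨h1, h2⟩
    exact key 3 (by norm_num) i j hij ⟨Int.dvd_of_emod_eq_zero (by exact_mod_cast h1), Int.dvd_of_emod_eq_zero (by exact_mod_cast h2)⟩
  have a01 := k2 0 1 (by decide)
  have a02 := k2 0 2 (by decide)
  have a03 := k2 0 3 (by decide)
  have a12 := k2 1 2 (by decide)
  have a13 := k2 1 3 (by decide)
  have a23 := k2 2 3 (by decide)
  have b01 := k3 0 1 (by decide)
  have b02 := k3 0 2 (by decide)
  have b03 := k3 0 3 (by decide)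
  have b12 := k3 1 2 (by decide)
  have b13 := k3 1 3 (by decide)
  have b23 := k3 2 3 (by decide)
  constructor
  · have h0 := sq_mod8 (x 0)
    have h1 := sq_mod8 (x 1)
    have h2 := sq_mod8 (x 2)
    have h3 := sq_mod8 (x 3)
    omega
  · have h0 := sq_mod3 (x 0)
    have h1 := sq_mod3 (x 1)
    have h2 := sq_mod3 (x 2)
    have h3 := sq_mod3 (x 3)
    omega

lemma rep_of_wit (n : ℕ) (hn : n < 3000) (hA : Adm n) (h1 : n ≠ 100) (h2 : n ≠ 268) : Representable n := by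
  have hmem : n ∈ (List.range 3000).filter (fun n => admB n && !(n == 100) && !(n == 268)) := by
    rw [List.mem_filter]
    refine ⟨List.mem_range.2 hn, ?_⟩
    simp only [admB, Bool.and_eq_true, Bool.or_eq_true, beq_iff_eq, Bool.not_eq_true', beq_eq_false_iff_ne]
    exact ⟨⟨⟨by rcases hA.1 with h | h | h <;> simp [h], hA.2⟩, h1⟩, h2⟩
  rw [← wit_val, List.mem_map] at hmem
  obtain ⟨t, ht, rfl⟩ := hmem
  have hc := (List.all_eq_true.1 wit_cop) t ht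
  simp only [copB, Bool.and_eq_true, beq_iff_eq] at hc
  obtain ⟨⟨⟨⟨⟨c01, c02⟩, c03⟩, c12⟩, c13⟩, c23⟩ := hc
  refine ⟨![(t.1 : ℤ), t.2.1, t.2.2.1, t.2.2.2], ?_, ?_⟩
  · rw [Fin.sum_univ_four]
    simp only [Matrix.cons_val_zero, Matrix.cons_val_one, Matrix.cons_val, val]
    push_cast
    ring
  · intro i j hij
    have e : ∀ a b : ℕ, Int.gcd (a : ℤ) (b : ℤ) = Nat.gcd a b := fun a b => Int.gcd_natCast_natCast a b
    fin_cases i <;> fin_cases j <;> simp at hij ⊢ <;> first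
      | exact c01 | exact c02 | exact c03 | exact c12 | exact c13 | exact c23
      | (rw [Nat.gcd_comm]; exact c01) | (rw [Nat.gcd_comm]; exact c02) | (rw [Nat.gcd_comm]; exact c03)
      | (rw [Nat.gcd_comm]; exact c12) | (rw [Nat.gcd_comm]; exact c13) | (rw [Nat.gcd_comm]; exact c23)

lemma not_rep (n B : ℕ) (hB : n < B ^ 2)
    (h : ∀ a < B, ∀ b < B, ∀ c < B, ∀ d < B, val (a, b, c, d) = n → copB (a, b, c, d) = false) : ¬ Representable n := by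
  rintro ⟨x, hx, hg⟩
  rw [Fin.sum_univ_four] at hx
  have hsq : ∀ t : ℤ, ((t.natAbs : ℕ) : ℤ) ^ 2 = t ^ 2 := fun t => Int.natAbs_sq t
  have hbd : ∀ t r : ℤ, 0 ≤ r → t ^ 2 + r = n → t.natAbs < B := by
    intro t r hr ht
    have h1 : ((t.natAbs : ℕ) : ℤ) ^ 2 ≤ n := by rw [hsq]; linarith
    have h2 : t.natAbs ^ 2 ≤ n := by exact_mod_cast h1
    exact lt_of_pow_lt_pow_left₀ 2 (Nat.zero_le _) (lt_of_le_of_lt h2 hB)
  have h0 := hbd (x 0) (x 1 ^ 2 + x 2 ^ 2 + x 3 ^ 2) (by positivity) (by rw [← hx]; ring)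
  have h1 := hbd (x 1) (x 0 ^ 2 + x 2 ^ 2 + x 3 ^ 2) (by positivity) (by rw [← hx]; ring)
  have h2 := hbd (x 2) (x 0 ^ 2 + x 1 ^ 2 + x 3 ^ 2) (by positivity) (by rw [← hx]; ring)
  have h3 := hbd (x 3) (x 0 ^ 2 + x 1 ^ 2 + x 2 ^ 2) (by positivity) (by rw [← hx]; ring)
  have h4 := h _ h0 _ h1 _ h2 _ h3 (by
    have : ((val ((x 0).natAbs, (x 1).natAbs, (x 2).natAbs, (x 3).natAbs) : ℕ) : ℤ) = n := by
      rw [val]
      push_cast
      rw [← hx]
      simp only [sq_abs]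
    exact_mod_cast this)
  have g : ∀ i j, i ≠ j → Nat.gcd (x i).natAbs (x j).natAbs = 1 := fun i j hij => hg i j hij
  have h5 : copB ((x 0).natAbs, (x 1).natAbs, (x 2).natAbs, (x 3).natAbs) = true := by
    simp only [copB, Bool.and_eq_true, beq_iff_eq]
    exact ⟨⟨⟨⟨⟨g 0 1 (by decide), g 0 2 (by decide)⟩, g 0 3 (by decide)⟩, g 1 2 (by decide)⟩, g 1 3 (by decide)⟩, g 2 3 (by decide)⟩
  rw [h4] at h5
  exact absurd h5 (by simp)

lemma fin_reps (n : ℕ) : {x : Fin 4 → ℤ | ∑ i, x i ^ 2 = (n : ℤ) ∧ ∀ i j, i ≠ j → Int.gcd (x i) (x j) = 1}.Finite := by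
  apply (Pool.Agent.W65.FS.reps n).finite_toSet.subset
  intro x hx
  rw [Finset.mem_coe, Pool.Agent.W65.FS.mem_reps]
  exact hx.1

theorem result :
    (∃ E : Finset ℕ, 100 ∈ E ∧ 268 ∈ E ∧ (∀ n ∈ E, n < 3000 → n = 100 ∨ n = 268) ∧
      ∀ n : ℕ, 0 < n →
        (Representable n ↔ ((n % 8 = 3 ∨ n % 8 = 4 ∨ n % 8 = 7) ∧ n % 3 ≠ 2 ∧ n ∉ E))) ∧
    (∀ ε : ℝ, 0 < ε → ∃ N : ℕ, ∀ n : ℕ, N ≤ n → (n % 8 = 3 ∨ n % 8 = 4 ∨ n % 8 = 7) → n % 3 ≠ 2 →
      (n : ℝ) ^ (1 - ε) ≤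
        ({x : Fin 4 → ℤ | ∑ i, x i ^ 2 = (n : ℤ) ∧ ∀ i j, i ≠ j → Int.gcd (x i) (x j) = 1}.ncard : ℝ)) := by
  classical
  have hmain : ∀ ε : ℝ, 0 < ε → ∃ N : ℕ, ∀ n : ℕ, N ≤ n → (n % 8 = 3 ∨ n % 8 = 4 ∨ n % 8 = 7) → n % 3 ≠ 2 →
      (n : ℝ) ^ (1 - ε) ≤
        ({x : Fin 4 → ℤ | ∑ i, x i ^ 2 = (n : ℤ) ∧ ∀ i j, i ≠ j → Int.gcd (x i) (x j) = 1}.ncard : ℝ) := by
    intro ε hε
    obtain ⟨n0, h⟩ := main_count (min ε (1 / 4000)) (lt_min hε (by norm_num)) (min_le_right _ _)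
    refine ⟨n0 + 1, ?_⟩
    intro n hn h8 h3
    obtain ⟨S, hS1, hS2⟩ := h n (by omega) h8 h3
    have hnr : (1 : ℝ) ≤ n := by
      have : 1 ≤ n := by omega
      exact_mod_cast this
    have h1 : S.card ≤ {x : Fin 4 → ℤ | ∑ i, x i ^ 2 = (n : ℤ) ∧ ∀ i j, i ≠ j → Int.gcd (x i) (x j) = 1}.ncard := by
      rw [← Set.ncard_coe_finset]
      apply Set.ncard_le_ncard _ (fin_reps n)
      intro x hx
      exact hS2 x (Finset.mem_coe.1 hx)
    have h2 : (S.card : ℝ) ≤ ({x : Fin 4 → ℤ | ∑ i, x i ^ 2 = (n : ℤ) ∧ ∀ i j, i ≠ j → Int.gcd (x i) (x j) = 1}.ncard : ℝ) := by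
      exact_mod_cast h1
    refine le_trans ?_ (hS1.trans h2)
    apply Real.rpow_le_rpow_of_exponent_le hnr
    have := min_le_left ε (1 / 4000 : ℝ)
    linarith
  refine ⟨?_, hmain⟩
  obtain ⟨N, hN⟩ := hmain (1 / 2) (by norm_num)
  refine ⟨(Finset.range (N + 300)).filter (fun n => Adm n ∧ ¬ Representable n), ?_, ?_, ?_, ?_⟩
  · rw [Finset.mem_filter, Finset.mem_range]
    exact ⟨by omega, by unfold Adm; norm_num, not_rep 100 11 (by norm_num) no100⟩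
  · rw [Finset.mem_filter, Finset.mem_range]
    exact ⟨by omega, by unfold Adm; norm_num, not_rep 268 17 (by norm_num) no268⟩
  · intro n hn hlt
    rw [Finset.mem_filter] at hn
    by_contra hne
    push Not at hne
    exact hn.2.2 (rep_of_wit n hlt hn.2.1 hne.1 hne.2)
  · intro n hn
    constructor
    · intro hr
      have hA := adm_of_rep n hr
      refine ⟨hA.1, hA.2, ?_⟩
      rw [Finset.mem_filter]
      rintro ⟨_, _, h⟩
      exact h hr
    · rintro ⟨h8, h3, hE⟩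
      by_contra hnr
      apply hE
      rw [Finset.mem_filter, Finset.mem_range]
      refine ⟨?_, ⟨h8, h3⟩, hnr⟩
      by_contra hbig
      push Not at hbig
      have h1 := hN n (by omega) h8 h3
      have hn0 : (0 : ℝ) < n := by exact_mod_cast hn
      have h2 : (0 : ℝ) < ({x : Fin 4 → ℤ | ∑ i, x i ^ 2 = (n : ℤ) ∧ ∀ i j, i ≠ j → Int.gcd (x i) (x j) = 1}.ncard : ℝ) :=
        lt_of_lt_of_le (Real.rpow_pos_of_pos hn0 _) h1
      have h3 : {x : Fin 4 → ℤ | ∑ i, x i ^ 2 = (n : ℤ) ∧ ∀ i j, i ≠ j → Int.gcd (x i) (x j) = 1}.ncard ≠ 0 := by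
        intro h0
        rw [h0] at h2
        simp at h2
      obtain ⟨x, hx⟩ := Set.nonempty_of_ncard_ne_zero h3
      exact hnr ⟨x, hx⟩

end Pool.Agent.Results.MP_0e0027_nt.CoprimeSquares
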